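import Pool.Agent.Lib.AL.All

/-! In every projective plane of large order `q`, a random set of points of density `ρ < 1`
contains a blocking set with at most `C q` points only with exponentially small probability. -/

namespace Pool.Agent.Results.MP_74be22_co.AlonRandom

open Pool.Agent.Lib.AL

open Classical in
theorem result (ρ : ℝ) (h0 : 0 ≤ ρ) (h1 : ρ < 1) (C : ℕ) :
    ∃ c : ℝ, 0 < c ∧ ∃ q₀ : ℕ, ∀ (P L : Type) [Membership P L] [Fintype P] [Fintype L]
      [Configuration.ProjectivePlane P L], q₀ ≤ Configuration.ProjectivePlane.order P L →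
      ∑ R ∈ (Finset.univ : Finset (Finset P)).filter (fun R => ∃ B ⊆ R,
          (∀ l : L, ∃ x ∈ B, x ∈ l) ∧ B.card ≤ C * Configuration.ProjectivePlane.order P L),
        ρ ^ R.card * (1 - ρ) ^ (Fintype.card P - R.card)
        ≤ Real.exp (-(c * Configuration.ProjectivePlane.order P L)) := by
  obtain ⟨c, hc, q₀, h⟩ := all_rand ρ C h0 h1
  refine ⟨c, hc, q₀, fun P L _ _ _ _ hq => ?_⟩
  obtain ⟨π, hπ, hm⟩ := st_BRIDGE P L
  rw [← hπ] at hq ⊢
  refine h P L π hq _ fun R hR => ?_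
  obtain ⟨B, hBR, hb, hc⟩ := (Finset.mem_filter.1 hR).2
  refine ⟨B, hBR, fun l => ?_, hc⟩
  obtain ⟨x, hx, hxl⟩ := hb l
  exact ⟨x, hx, (hm l x).2 hxl⟩

end Pool.Agent.Results.MP_74be22_co.AlonRandom
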