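import Pool.Agent.Lib.AL.All

/-! Pairwise balanced designs with all blocks larger than `c √n` and no bounded transversal. -/

namespace Pool.Agent.Results.MP_74be22_co.PBD

theorem result (c : ℝ) (hc : c < 1) (C n₀ : ℕ) :
    ∃ n : ℕ, n₀ ≤ n ∧ ∃ F : Finset (Finset (Fin n)),
      (∀ A ∈ F, c * Real.sqrt n < (A.card : ℝ)) ∧
      (∀ x y : Fin n, x ≠ y → ∃! A, A ∈ F ∧ x ∈ A ∧ y ∈ A) ∧
      ∀ S : Finset (Fin n), (∀ A ∈ F, 1 ≤ (A ∩ S).card) →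
        C * Real.sqrt n < (S.card : ℝ) ∧ ∃ A ∈ F, C < (A ∩ S).card :=
  Pool.Agent.Lib.AL.all_pbd c C n₀ hc

end Pool.Agent.Results.MP_74be22_co.PBD
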