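import Pool.Agent.Lib.MP_74be22_co.Pos
import Pool.Agent.Lib.MP_74be22_h62.Main

namespace Pool.Agent.Results.MP_74be22_co.ThresholdFull

theorem result (c₁ c₂ : ℝ) (h₁ : 0 < c₁) (h₂ : 0 < c₂) :
    (∃ C : ℕ, ∀ n : ℕ, ∀ F : Finset (Finset (Fin n)),
      (∀ A ∈ F, c₁ * Real.sqrt (n : ℝ) < (A.card : ℝ)) →
      (∀ A ∈ F, ∀ B ∈ F, A ≠ B → ((A ∩ B).card : ℝ) ≤ c₂) →
      ∃ S : Finset (Fin n), ∀ A ∈ F, 1 ≤ (A ∩ S).card ∧ (A ∩ S).card ≤ C) ↔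
    (⌊c₂⌋₊ : ℝ) < c₁ ^ 2 := by
  constructor
  · rintro ⟨C, hC⟩
    by_contra hlt
    obtain ⟨n, F, h1, h2, h3⟩ := T74B.negative c₁ ⌊c₂⌋₊ h₁ (not_lt.1 hlt) C
    exact h3 (hC n F h1 fun A hA B hB hAB => (Nat.le_floor_iff h₂.le).1 (h2 A hA B hB hAB))
  · intro hlt
    obtain ⟨C, hC⟩ := Trans74.positive c₁ ⌊c₂⌋₊ h₁ hlt
    exact ⟨C, fun n F h1 h2 => hC n F h1
      fun A hA B hB hAB => (Nat.le_floor_iff h₂.le).2 (h2 A hA B hB hAB)⟩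

end Pool.Agent.Results.MP_74be22_co.ThresholdFull
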